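import Pool.Agent.helper88.HT.Spec

/-!
# Row ht:PHX (MP_069684_lc)
-/

set_option autoImplicit false

namespace Pool.Agent.helper88.HT

open Pool.Agent.helper38.Neg Pool.Agent.helper55.NT

theorem PHX_al {n : ℕ} (x : Fin n → Bool) : Al x (fun i => !(x i)) x := by
  intro i
  refine ⟨id, fun h => ?_⟩
  simp [h]

open Classical in
theorem PHX_ge {n s k : ℕ} (C : Circuit n s) (o : Fin (n + s)) (H : Fin n → Gk k)
    (x : Fin n → Bool) (σ : Gk k)
    (h : (dval C (ex H x (fun i => !(x i)) σ true) (ex H x (fun i => !(x i)) σ false) o).1 = true) :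
    C.val x o = true := by
  refine (dval_ge C x _ _ (fun i => ⟨fun hi => ?_, fun hi => ?_⟩) o).1 h
  · unfold ex at hi
    rw [decide_eq_true_iff] at hi
    obtain ⟨y, hy, hyi, -⟩ := hi
    exact (hy i).1 hyi
  · unfold ex at hi
    rw [decide_eq_true_iff] at hi
    obtain ⟨y, hy, hyi, -⟩ := hi
    have := (hy i).2 hyi
    simpa using this

open Classical in
theorem PHX_le {n s k : ℕ} (C : Circuit n s) (o : Fin (n + s)) (H : Fin n → Gk k)
    (x : Fin n → Bool) (h : C.val x o = true) :
    (dval C (ex H x (fun i => !(x i)) (syn H x) true)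
      (ex H x (fun i => !(x i)) (syn H x) false) o).1 = true := by
  refine (dval_le C x _ _ (fun i => ⟨fun hi => ?_, fun hi => ?_⟩) o).1 h
  · unfold ex
    rw [decide_eq_true_iff]
    exact ⟨x, PHX_al x, hi, rfl⟩
  · unfold ex
    rw [decide_eq_true_iff]
    exact ⟨x, PHX_al x, hi, rfl⟩

theorem PHX : PHX_stmt := by
  intro n s k C o H x
  dsimp only
  unfold PHI
  rw [Bool.eq_iff_iff, decide_eq_true_iff]
  constructor
  · rintro ⟨σ, h⟩
    exact PHX_ge C o H x σ h
  · intro h
    exact ⟨syn H x, PHX_le C o H x h⟩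

end Pool.Agent.helper88.HT
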